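import Pool.Agent.Helper89.OS.St1

/-!
# Project OS (MP_2b6189_al), module PRM

`rho (Dg c)` is a permutation matrix.
-/

set_option autoImplicit false

namespace Pool.Agent.Helper36.OS

open Matrix ComplexConjugate Pool.Agent.Helper94.YF Pool.Agent.Helper94.YG Pool.Agent.Helper89.OS

theorem hPRM : StPRM := by
  intro hA _ _ I _ _ Z c
  obtain ⟨σ, hσ⟩ := hA I Z c
  have hn : (Z.n : ℂ) ≠ 0 := by exact_mod_cast Z.n_pos.ne'
  have hd : ∀ i, (Z.d i : ℂ) ≠ 0 := fun i => by exact_mod_cast (Z.d_pos i).ne'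
  have hSo : ∀ l, Z.rho Sm Z.o l ≠ 0 := fun l => by
    rw [Z.s_o]; exact div_ne_zero (hd l) hn
  -- the matrix T = rho (Dg c * Sm)
  have hT : ∀ i j, Z.rho (Dg c * Sm) i j = σ (Z.rho Sm i j) := by
    apply hσ
    · rw [Matrix.SpecialLinearGroup.coe_mul]
      simp [Dg, Sm, Matrix.mul_apply, Fin.sum_univ_two]
    · rw [Matrix.SpecialLinearGroup.coe_mul]
      simp [Dg, Sm, Matrix.mul_apply, Fin.sum_univ_two]
    · rw [Matrix.SpecialLinearGroup.coe_mul]
      simp [Dg, Sm, Matrix.mul_apply, Fin.sum_univ_two]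
    · rw [Matrix.SpecialLinearGroup.coe_mul]
      simp [Dg, Sm, Matrix.mul_apply, Fin.sum_univ_two]
  have hu1 : ∀ (g : SL Z.L) (i j : I), ∑ k, conj (Z.rho g k i) * Z.rho g k j = if i = j then 1 else 0 := by
    intro g i j
    have h := congrFun (congrFun (Z.unitary g) i) j
    simpa [Matrix.mul_apply, Matrix.conjTranspose_apply, Matrix.one_apply] using h
  have hu2 : ∀ (g : SL Z.L) (i j : I), ∑ k, Z.rho g i k * conj (Z.rho g j k) = if i = j then 1 else 0 := by
    intro g i j
    have h0 := mul_eq_one_comm.mp (Z.unitary g)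
    have h := congrFun (congrFun h0 i) j
    simpa [Matrix.mul_apply, Matrix.conjTranspose_apply, Matrix.one_apply] using h
  have key : ∀ j, ∃ j', ∀ i, σ (Z.rho Sm i j) = Z.rho Sm i j' := by
    intro j
    set s : ℂ := Z.rho Sm Z.o j with hs
    have hs0 : s ≠ 0 := hSo j
    have hσs : σ s = s := by
      rw [hs, Z.s_o]; simp
    let f : I → ℂ := fun i => σ (Z.rho Sm i j) / s
    have hf : ∀ i, f i = σ (Z.rho Sm i j) / s := fun i => rfl
    have hfo : f Z.o = 1 := by
      rw [hf, ← hs, hσs, div_self hs0]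
    have hff : ∀ i k, f i * f k = ∑ v, (Z.N i k v : ℂ) * f v := by
      intro i k
      have h1 := congrArg σ (Z.verlinde i k j)
      rw [map_mul, map_mul, map_sum, ← hs, hσs] at h1
      simp only [map_mul, map_natCast] at h1
      have h2 : ∑ v, (Z.N i k v : ℂ) * f v = (∑ v, (Z.N i k v : ℂ) * σ (Z.rho Sm v j)) / s := by
        rw [Finset.sum_div]
        exact Finset.sum_congr rfl fun v _ => by rw [hf, mul_div_assoc]
      rw [h2, hf, hf, div_mul_div_comm, h1, mul_div_mul_left _ _ hs0]
    let A : I → ℂ := fun l => ∑ v, f v * conj (Z.rho Sm v l)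
    have hA' : ∀ l, A l = ∑ v, f v * conj (Z.rho Sm v l) := fun l => rfl
    have hfA : ∀ v, f v = ∑ l, A l * Z.rho Sm v l := by
      intro v
      have h1 : ∑ l, A l * Z.rho Sm v l = ∑ w, f w * ∑ l, Z.rho Sm v l * conj (Z.rho Sm w l) := by
        simp only [hA', Finset.sum_mul, Finset.mul_sum]
        rw [Finset.sum_comm]
        refine Finset.sum_congr rfl fun w _ => Finset.sum_congr rfl fun l _ => ?_
        ring
      rw [h1]
      simp only [hu2]
      simp
    have h3 : ∀ i k, f i * f k = ∑ l, A l / Z.rho Sm Z.o l * (Z.rho Sm i l * Z.rho Sm k l) := by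
      intro i k
      rw [hff]
      have h4 : ∀ l, A l / Z.rho Sm Z.o l * (Z.rho Sm i l * Z.rho Sm k l)
          = ∑ v, (Z.N i k v : ℂ) * (A l * Z.rho Sm v l) := by
        intro l
        rw [Z.verlinde, Finset.mul_sum, Finset.mul_sum]
        refine Finset.sum_congr rfl fun v _ => ?_
        have := hSo l
        field_simp
      simp only [h4]
      rw [Finset.sum_comm]
      refine Finset.sum_congr rfl fun v _ => ?_
      rw [← Finset.mul_sum, ← hfA]
    have h5 : ∀ i l', f i * A l' = A l' / Z.rho Sm Z.o l' * Z.rho Sm i l' := by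
      intro i l'
      have h6 : f i * A l' = ∑ k, (f i * f k) * conj (Z.rho Sm k l') := by
        rw [hA', Finset.mul_sum]
        exact Finset.sum_congr rfl fun k _ => by ring
      rw [h6]
      simp only [h3, Finset.sum_mul]
      rw [Finset.sum_comm]
      have h7 : ∀ l, ∑ k, A l / Z.rho Sm Z.o l * (Z.rho Sm i l * Z.rho Sm k l) * conj (Z.rho Sm k l')
          = if l' = l then A l / Z.rho Sm Z.o l * Z.rho Sm i l else 0 := by
        intro l
        have h8 : ∑ k, A l / Z.rho Sm Z.o l * (Z.rho Sm i l * Z.rho Sm k l) * conj (Z.rho Sm k l')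
            = A l / Z.rho Sm Z.o l * Z.rho Sm i l * ∑ k, conj (Z.rho Sm k l') * Z.rho Sm k l := by
          rw [Finset.mul_sum]
          exact Finset.sum_congr rfl fun k _ => by ring
        rw [h8, hu1]
        simp
      simp only [h7]
      simp
    -- some A l' is nonzero
    obtain ⟨l', hl'⟩ : ∃ l', A l' ≠ 0 := by
      by_contra hcon
      push Not at hcon
      have := hfA Z.o
      rw [hfo] at this
      simp [hcon] at this
    have h9 : ∀ i, f i = Z.rho Sm i l' / Z.rho Sm Z.o l' := by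
      intro i
      have h := h5 i l'
      have h0 := hSo l'
      field_simp at h ⊢
      linear_combination h
    have h10 : ∀ i, σ (Z.rho Sm i j) = s / Z.rho Sm Z.o l' * Z.rho Sm i l' := by
      intro i
      have h := h9 i
      rw [hf] at h
      have h0 := hSo l'
      field_simp at h ⊢
      linear_combination h
    -- norms
    have h11 : s / Z.rho Sm Z.o l' = (Z.d j : ℂ) / (Z.d l' : ℂ) := by
      rw [hs, Z.s_o, Z.s_o, div_div_div_cancel_right₀ hn]
    have h12 : ((Z.d j : ℂ) / (Z.d l' : ℂ)) * ((Z.d j : ℂ) / (Z.d l' : ℂ)) = 1 := by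
      have h13 := hu1 (Dg c * Sm) j j
      simp only [hT, h10, h11, if_true, map_mul, map_div₀, map_natCast] at h13
      have h14 := hu1 Sm l' l'
      simp only [if_true] at h14
      have h15 : ∑ k, (Z.d j : ℂ) / (Z.d l' : ℂ) * conj (Z.rho Sm k l') *
          ((Z.d j : ℂ) / (Z.d l' : ℂ) * Z.rho Sm k l')
          = ((Z.d j : ℂ) / (Z.d l' : ℂ)) * ((Z.d j : ℂ) / (Z.d l' : ℂ)) *
            ∑ k, conj (Z.rho Sm k l') * Z.rho Sm k l' := by
        rw [Finset.mul_sum]
        exact Finset.sum_congr rfl fun k _ => by ring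
      rw [h15, h14, mul_one] at h13
      exact h13
    have h16 : Z.d j = Z.d l' := by
      have h17 : (Z.d j : ℂ) * Z.d j = (Z.d l' : ℂ) * Z.d l' := by
        have h0 := hd l'
        field_simp at h12
        linear_combination h12
      have h18 : Z.d j * Z.d j = Z.d l' * Z.d l' := by exact_mod_cast h17
      exact Nat.mul_self_inj.mp h18
    refine ⟨l', fun i => ?_⟩
    rw [h10, h11, h16, div_self (hd l'), one_mul]
  choose π hπ using key
  refine ⟨π, fun i k => ?_⟩
  -- G = T * Sᴴ
  have hT2 : ∀ i j, Z.rho (Dg c * Sm) i j = Z.rho Sm (π i) j := by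
    intro i j
    rw [hT, Z.s_symm i j, hπ i j, Z.s_symm]
  have hG : ∑ j, Z.rho (Dg c * Sm) i j * conj (Z.rho Sm k j) = Z.rho (Dg c) i k := by
    rw [map_mul]
    have h1 : Z.rho (Dg c) * Z.rho Sm * (Z.rho Sm)ᴴ = Z.rho (Dg c) := by
      rw [Matrix.mul_assoc, mul_eq_one_comm.mp (Z.unitary Sm), Matrix.mul_one]
    have h2 := congrFun (congrFun h1 i) k
    rw [Matrix.mul_apply] at h2
    simpa [Matrix.conjTranspose_apply] using h2
  rw [← hG]
  simp only [hT2, hu2]
  by_cases h : π i = k
  · simp [h]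
  · rw [if_neg h, if_neg (fun h' => h h'.symm)]

end Pool.Agent.Helper36.OS
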